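import Pool.Agent.RCay.PartN
import Pool.Agent.RCay.IsoTest

/-!
# Smoothed analysis of graph isomorphism for Cayley graphs of arbitrary finite groups

Written by helper4 with the team (RCay modules).

For every `δ > 0` and `A` there are `r` and `C` such that every finite group `G` of order `n` has an
`r`-tuple `t` of elements, depending only on `G` (and `δ`, `A`), with the following property. Put every
pair `{g, g⁻¹}`, `g ≠ 1`, into the connection set independently with its own probability in
`[δ, 1 - δ]` (for instance: take any Cayley graph of `G` and flip every pair with probability `δ`).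
Then with probability at least `1 - C n^(-A)` the colour refinement of the Cayley graph with the
vertices `t` individualised gives `n` different colours after three rounds, and an arbitrary finite
graph `H` is isomorphic to it if and only if some `r`-tuple `u` of its vertices produces the same
multiset of colours after four rounds.
-/

set_option autoImplicit false

namespace Pool.Agent.Results.MP_128e7d_lc.CayleyGraphs

open Pool.RCay
open scoped Classical

theorem result (δ : ℝ) (hδ : 0 < δ) (A : ℕ) :
    ∃ r C : ℕ, ∀ (G : Type) [Group G] [Fintype G], ∃ t : Fin r → G,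
      ∀ q : G → ℝ, (∀ g, δ ≤ q g ∧ q g ≤ 1 - δ) →
        (∑ ω ∈ Finset.univ.filter (fun ω : G → Bool =>
          ¬ (Function.Injective (col (cay (SS ω)) t 3) ∧
            ∀ (W : Type) [Fintype W] (H : SimpleGraph W),
              Nonempty (cay (SS ω) ≃g H) ↔ ∃ u : Fin r → W, cols H u 4 = cols (cay (SS ω)) t 4)),
          wt q ω) * Fintype.card G ^ A ≤ C := by
  obtain ⟨r, C, h⟩ := smoothed δ hδ A
  refine ⟨r, C, ?_⟩
  intro G _ _
  obtain ⟨t, ht⟩ := h G
  refine ⟨t, fun q hq => le_trans ?_ (ht q hq)⟩
  apply mul_le_mul_of_nonneg_right _ (by positivity)
  apply Finset.sum_le_sum_of_subset_of_nonneg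
  · intro ω hω
    simp only [Finset.mem_filter, Finset.mem_univ, true_and] at hω ⊢
    intro hinj
    refine hω ⟨hinj, ?_⟩
    intro W _ H
    exact iso_test (cay (SS ω)) H t hinj
  · intro ω _ _
    unfold wt
    apply Finset.prod_nonneg
    intro g _
    have := hq g
    split_ifs <;> linarith

end Pool.Agent.Results.MP_128e7d_lc.CayleyGraphs
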