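import Pool.Agent.CLA.Final

/-!
# Choiceless polynomial time with linear-algebraic operators and graph isomorphism

`Tm Γ` are the programs of choiceless polynomial time with counting (terms of the logic of Blass,
Gurevich and Shelah, with cardinality) extended by all linear-algebraic operators `LaOp` over all
fields: functions of tuples of square matrices over a field which are invariant under simultaneous
similarity. The index set of the matrices is the value of a term (any hereditarily finite set over
the input), the entries and the name of the field are given by terms with natural numbers as values.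
`Accepts S t a b` means that the program `t` accepts the input structure `S` when its iterations are
bounded by `a` (number of steps) and `b` (number of active objects of every stage).

There are classes `K`, `L` of graphs, closed under isomorphism, such that `L` is decided, on all
graphs, by a Turing machine in polynomial time, and isomorphism of graphs in `K` is decided by a
complete invariant which is computed in polynomial time, and there are graphs `G i` in `K`, not in
`L`, and `H i` in `K` and in `L`, with the same number `N i` of vertices,
`2 ^ i ≤ N i ≤ 2 ^ (D (i + 1))`, such that every program gives the same answer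
* on the pair `(G i, G i)` and the pair `(G i, H i)`, where a linear order of the vertices of the first
  graph is available to the program,
* on `G i` and `H i`,
for all large `i`, for all `a` and all `b ≤ 2 ^ (i √i / C)`; this bound is superpolynomial in `N i`.

In particular choiceless polynomial time with counting and all linear-algebraic operators over all
fields does not capture polynomial time, and no program with polynomial bounds decides isomorphism of
graphs in `K`.
-/

set_option autoImplicit false

namespace Pool.Agent.Results.MP_128e7d_lc.ChoicelessLinearAlgebra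

open Pool.Agent.CLA

/-- `f` is computed by a Turing machine in polynomial time -/
def PTime (f : List Bool → List Bool) : Prop :=
  Nonempty (Turing.TM2ComputableInPolyTime (fun w : List Bool => w) (fun w : List Bool => w) f)

open Classical in
/-- the adjacency matrix of a graph, row by row -/
noncomputable def graphCode {n : ℕ} (G : SimpleGraph (Fin n)) : List Bool :=
  (List.finRange n).flatMap (fun i => (List.finRange n).map (fun j => decide (G.Adj i j)))

/-- closed under isomorphism -/
def IsoClosed (K : ∀ V : Type, SimpleGraph V → Prop) : Prop :=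
  ∀ (V W : Type) (G : SimpleGraph V) (H : SimpleGraph W), K V G → Nonempty (G ≃g H) → K W H

theorem result : ∃ (D : ℕ) (K L : ∀ V : Type, SimpleGraph V → Prop)
    (dec inv : List Bool → List Bool) (N : ℕ → ℕ) (G H : ∀ i, SimpleGraph (Fin (N i))),
    IsoClosed K ∧ IsoClosed L ∧ PTime dec ∧
    (∀ (n : ℕ) (G : SimpleGraph (Fin n)), dec (graphCode G) = [true] ↔ L (Fin n) G) ∧
    PTime inv ∧
    (∀ (n m : ℕ) (G : SimpleGraph (Fin n)) (H : SimpleGraph (Fin m)), K (Fin n) G →
      K (Fin m) H → (inv (graphCode G) = inv (graphCode H) ↔ Nonempty (G ≃g H))) ∧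
    (∀ i, 2 ^ i ≤ N i ∧ N i ≤ 2 ^ (D * (i + 1)) ∧ K (Fin (N i)) (G i) ∧ K (Fin (N i)) (H i) ∧
      ¬ L (Fin (N i)) (G i) ∧ L (Fin (N i)) (H i) ∧ IsEmpty (G i ≃g H i)) ∧
    (∀ (t : Tm PV) (t' : Tm GV), ∃ C : ℕ, ∀ i ≥ C, ∀ a b : ℕ, b ^ C ≤ 2 ^ (i * Nat.sqrt i) →
      (Accepts (pStr (G i).Adj (· ≤ ·) (G i).Adj) t a b ↔
        Accepts (pStr (G i).Adj (· ≤ ·) (H i).Adj) t a b) ∧
      (Accepts (gStr (G i).Adj) t' a b ↔ Accepts (gStr (H i).Adj) t' a b)) ∧
    (∀ (t : Tm PV) (p q : Polynomial ℕ), ¬ ∀ (n : ℕ) (G H : SimpleGraph (Fin n)),
      K (Fin n) G → K (Fin n) H →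
      (Accepts (pStr G.Adj (· ≤ ·) H.Adj) t (p.eval (n + n)) (q.eval (n + n)) ↔
        Nonempty (G ≃g H))) ∧
    (∀ (t : Tm GV) (p q : Polynomial ℕ), ¬ ∀ (n : ℕ) (G : SimpleGraph (Fin n)),
      K (Fin n) G → (Accepts (gStr G.Adj) t (p.eval n) (q.eval n) ↔ L (Fin n) G)) := by
  obtain ⟨D, K, L, dec, inv, N, G, H, h1, h2, h3, h4, h5, h6, h7, h8, h9, h10⟩ := final
  exact ⟨D, K, L, dec, inv, N, G, H, h1, h2, h3, h4, h5, h6, h7, h8, h9, h10⟩

end Pool.Agent.Results.MP_128e7d_lc.ChoicelessLinearAlgebra
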