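import Pool.Agent.CPT.Final

/-!
# Choiceless polynomial time with counting and graph isomorphism

`Tm Γ` are the programs of choiceless polynomial time with counting (terms of the logic of Blass,
Gurevich and Shelah, with cardinality) for structures over the vocabulary `Γ`, and
`Accepts S t a b` means that the program `t` accepts the input structure `S` when its iterations are
bounded by `a` (number of steps) and `b` (number of active objects of every stage).

There is a class `L` of graphs which is closed under isomorphism and is decided, on all graphs, by a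
Turing machine in polynomial time, and there are graphs `G l` (not in `L`) and `H l` (in `L`) with
the same number `N l ≤ D * (l + 1) ^ 3` of vertices, of degree at most `D` and with colourings `c l`,
`d l` with colour classes of size at most `D`, such that every program gives the same answer
* on the pair `(G l, G l)` and the pair `(G l, H l)`,
* on `G l` and `H l`,
for all large `l`, for all bounds `b ≤ 2 ^ (l / C)` and all `a`; the order of the colours and, for
pairs, a linear order of the vertices of the first graph are available to the programs.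

In particular no program with polynomial bounds defines `L` (choiceless polynomial time with counting
does not capture polynomial time), and none decides isomorphism, or colour preserving isomorphism, of
graphs of degree at most `D` with ordered colour classes of size at most `D`.
-/

set_option autoImplicit false

namespace Pool.Agent.Results.MP_128e7d_lc.ChoicelessPolynomialTime

open Pool.Agent.CPT

/-- `f` is computed by a Turing machine in polynomial time -/
def PTime (f : List Bool → List Bool) : Prop :=
  Nonempty (Turing.TM2ComputableInPolyTime (fun w : List Bool => w) (fun w : List Bool => w) f)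

open Classical in
/-- the adjacency matrix of a graph, row by row -/
noncomputable def graphCode {n : ℕ} (G : SimpleGraph (Fin n)) : List Bool :=
  (List.finRange n).flatMap (fun i => (List.finRange n).map (fun j => decide (G.Adj i j)))

/-- the degrees of the graph and the sizes of the colour classes are at most `D` -/
def Bounded (D : ℕ) {n : ℕ} (G : SimpleGraph (Fin n)) (c : Fin n → ℕ) : Prop :=
  (∀ v, (G.neighborSet v).ncard ≤ D) ∧ ∀ i, {v | c v = i}.ncard ≤ D

theorem result : ∃ (D : ℕ) (L : ∀ V : Type, SimpleGraph V → Prop) (dec : List Bool → List Bool)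
    (N : ℕ → ℕ) (G H : ∀ l, SimpleGraph (Fin (N l))) (c d : ∀ l, Fin (N l) → ℕ),
    (∀ (V W : Type) (G : SimpleGraph V) (H : SimpleGraph W), L V G → Nonempty (G ≃g H) → L W H) ∧
    PTime dec ∧
    (∀ (n : ℕ) (G : SimpleGraph (Fin n)), dec (graphCode G) = [true] ↔ L (Fin n) G) ∧
    (∀ l, l ≤ N l ∧ N l ≤ D * (l + 1) ^ 3 ∧ Bounded D (G l) (c l) ∧ Bounded D (H l) (d l) ∧
      ¬ L (Fin (N l)) (G l) ∧ L (Fin (N l)) (H l) ∧ IsEmpty (G l ≃g H l)) ∧
    (∀ (t : Tm PrV) (t' : Tm GrV), ∃ C : ℕ, ∀ l ≥ C, ∀ a b : ℕ, b ^ C ≤ 2 ^ l →
      (Accepts (prStr (G l).Adj (c l) (· ≤ ·) (G l).Adj (c l)) t a b ↔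
        Accepts (prStr (G l).Adj (c l) (· ≤ ·) (H l).Adj (d l)) t a b) ∧
      (Accepts (grStr (G l).Adj (c l)) t' a b ↔ Accepts (grStr (H l).Adj (d l)) t' a b)) ∧
    (∀ (t : Tm PrV) (p q : Polynomial ℕ), ¬ ∀ (n : ℕ) (G H : SimpleGraph (Fin n))
      (c d : Fin n → ℕ), Bounded D G c → Bounded D H d →
      (Accepts (prStr G.Adj c (· ≤ ·) H.Adj d) t (p.eval (n + n)) (q.eval (n + n)) ↔
        Nonempty (G ≃g H))) ∧
    (∀ (t : Tm PrV) (p q : Polynomial ℕ), ¬ ∀ (n : ℕ) (G H : SimpleGraph (Fin n))
      (c d : Fin n → ℕ), Bounded D G c → Bounded D H d →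
      (Accepts (prStr G.Adj c (· ≤ ·) H.Adj d) t (p.eval (n + n)) (q.eval (n + n)) ↔
        ∃ f : G ≃g H, ∀ v, d (f v) = c v)) ∧
    (∀ (t : Tm GrV) (p q : Polynomial ℕ), ¬ ∀ (n : ℕ) (G : SimpleGraph (Fin n))
      (c : Fin n → ℕ), Bounded D G c →
      (Accepts (grStr G.Adj c) t (p.eval n) (q.eval n) ↔ L (Fin n) G)) := by
  obtain ⟨D, L, dec, N, G, H, c, d, h1, h2, h3, h4, h5, h6, h7, h8⟩ := final
  exact ⟨D, L, dec, N, G, H, c, d, h1, h2, h3, h4, h5, h6, h7, h8⟩

end Pool.Agent.Results.MP_128e7d_lc.ChoicelessPolynomialTime
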