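import Pool.Agent.CoWL.Size

/-!
# Cohomological Weisfeiler-Leman does not solve graph isomorphism

Cohomological `k`-dimensional Weisfeiler-Leman (Ó Conghaile 2022) is a polynomial-time
algorithm for graph isomorphism that extends `k`-dimensional Weisfeiler-Leman by linear algebra
over the integers.  It computes the largest set `S` of partial isomorphisms from `G` to `H` with
at most `k` elements that is closed under restriction, has the bijective extension property, and
in which every element and its inverse is extendable over the integers
(`Pool.Agent.CoWL.Stable`), and it distinguishes `G` and `H` if `S` is empty.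

For every `k` there are two non-isomorphic graphs with at most `2 ^ 2 ^ (12 * k + 7)` vertices
that it does not distinguish.  In the stable set that we give, every element even extends to one
system of integers that is compatible with restriction both in the domain and in the range
(`Pool.Agent.CoWL.ZExt2`).
-/

namespace Pool.Agent.Results.MP_128e7d_lc.CohomologicalWL

open Pool.Agent.CoWL

theorem result (k : ℕ) : ∃ (V : Type) (_ : Fintype V) (G H : SimpleGraph V),
    Fintype.card V ≤ 2 ^ 2 ^ (12 * k + 7) ∧ IsEmpty (G ≃g H) ∧
    ∃ S : Set (Finset (V × V)), S.Nonempty ∧ Stable k G H S ∧ ∀ s ∈ S, ZExt2 k S s :=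
  main_size k

end Pool.Agent.Results.MP_128e7d_lc.CohomologicalWL
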