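import Pool.Agent.Hhelper73.GIProof

set_option autoImplicit false

open Finset

namespace Pool.Agent.Results.MP_128e7d_lc.Decomposable

open Classical in
/-- **Brute force is optimal for nearly decomposable circuits deciding graph isomorphism.** -/
theorem result (n : ℕ) (hn : 2 ≤ n) :
    -- brute force for two graphs
    (∃ P : Program (Var n), P.RereadsAtMost 0 ∧ P.Computes (Isomorphic n) ∧
      P.size = 3 * (n.choose 2 + 1) * n.factorial + 2) ∧
    -- brute force for one fixed graph
    (∀ z : Pr n → Bool, ∃ P : Program (Pr n), P.RereadsAtMost 0 ∧ P.Computes (IsoTo z) ∧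
      P.size = (n.choose 2 + 1) * n.factorial + 2) ∧
    -- lower bound for two graphs
    (∀ (P : Program (Var n)) (k : ℕ), P.RereadsAtMost k → (∀ a, P.Accepts a → Isomorphic n a) →
      #{p : Equiv.Perm (Fin n) × (Pr n → Bool) | P.Accepts (inp p.1 p.2)} ≤
        P.size * n ^ (44 * (Nat.sqrt (n * Nat.clog 2 n) + 1) + 14 * k) * 2 ^ n.choose 2 ∧
      (P.Computes (Isomorphic n) →
        n.factorial ≤ P.size * n ^ (44 * (Nat.sqrt (n * Nat.clog 2 n) + 1) + 14 * k))) ∧
    -- almost every graph `z`
    (∃ Bad : Finset (Pr n → Bool), #Bad * n ^ n ≤ 2 ^ n.choose 2 ∧ ∀ z ∉ Bad,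
      -- lower bound for isomorphism to the fixed graph `z`
      (∀ (P : Program (Pr n)) (k : ℕ), P.RereadsAtMost k → (∀ a, P.Accepts a → IsoTo z a) →
        #{π : Equiv.Perm (Fin n) | P.Accepts (copy z π)} ≤
          P.size * (256 * Nat.clog 2 n) ^ (6 * n) * n ^ (14 * k) ∧
        (P.Computes (IsoTo z) →
          n.factorial ≤ P.size * (256 * Nat.clog 2 n) ^ (6 * n) * n ^ (14 * k))) ∧
      -- lower bound for two graphs, if the second one may be read arbitrarily often
      (∀ (P : Program (Var n)) (k : ℕ), RereadsFirstAtMost P k →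
        (∀ a, P.Accepts a → Isomorphic n a) →
        #{π : Equiv.Perm (Fin n) | P.Accepts (Sum.elim (copy z π) z)} ≤
          P.size * (256 * Nat.clog 2 n) ^ (6 * n) * n ^ (14 * k) ∧
        (P.Computes (Isomorphic n) →
          n.factorial ≤ P.size * (256 * Nat.clog 2 n) ^ (6 * n) * n ^ (14 * k)))) := by
  refine ⟨⟨brute n, brute_readOnce n, brute_computes n, brute_size n⟩,
    fun z => ⟨brute1 z, brute1_readOnce z, brute1_computes z, brute1_size z⟩, ?_, ?_⟩
  · intro P k hk hs
    have h1 := average_case hn hk hs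
    refine ⟨h1, fun hc => ?_⟩
    have h2 : #{p : Equiv.Perm (Fin n) × (Pr n → Bool) | P.Accepts (inp p.1 p.2)} =
        n.factorial * 2 ^ n.choose 2 := by
      rw [Finset.filter_true_of_mem (fun p _ => (hc _).2 (inp_isomorphic p.1 p.2)),
        Finset.card_univ, Fintype.card_prod, Fintype.card_perm, Fintype.card_fin,
        Fintype.card_fun, Fintype.card_bool, card_Pr]
    rw [h2] at h1
    exact Nat.le_of_mul_le_mul_right h1 (by positivity)
  refine ⟨({z : Pr n → Bool | ¬ GoodZ ((6 * Nat.clog 2 n + 2) * Nat.clog 2 n) (3 * Nat.clog 2 n)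
    ((((6 * Nat.clog 2 n + 2) * Nat.clog 2 n + 1) * n) *
      ((6 * Nat.clog 2 n + 2) * Nat.clog 2 n) ^ 2) z} : Finset (Pr n → Bool)),
    bad_few hn _ _ rfl rfl, ?_⟩
  intro z hz
  simp only [Finset.mem_filter, Finset.mem_univ, true_and, not_not] at hz
  refine ⟨?_, ?_⟩
  · intro P k hk hs
    have h1 := fixed_bound hn z _ _ rfl rfl hz hk hs
    refine ⟨h1, fun hc => ?_⟩
    have h2 : #{π : Equiv.Perm (Fin n) | P.Accepts (copy z π)} = n.factorial := by
      rw [Finset.filter_true_of_mem (fun π _ => (hc _).2 (isoTo_copy z π)),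
        Finset.card_univ, Fintype.card_perm, Fintype.card_fin]
    rwa [h2] at h1
  · intro P k hk hs
    have h1 := fixed_bound hn z _ _ rfl rfl hz (fixRight_rereads hk z) (k := k)
      (P := fixRight P z) (fun a ha => hs _ ((fixRight_accepts P z a).1 ha))
    simp only [fixRight_accepts] at h1
    refine ⟨h1, fun hc => ?_⟩
    have h2 : #{π : Equiv.Perm (Fin n) | P.Accepts (Sum.elim (copy z π) z)} = n.factorial := by
      rw [Finset.filter_true_of_mem (fun π _ => (hc (Sum.elim (copy z π) z)).2 (isoTo_copy z π)),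
        Finset.card_univ, Fintype.card_perm, Fintype.card_fin]
    rw [h2] at h1
    exact h1

end Pool.Agent.Results.MP_128e7d_lc.Decomposable
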