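import Pool.Agent.SRGWL.Final
import Pool.Agent.SRGWL.WLGroup
import Pool.Agent.SRGWL.GroupUpper

/-!
# The Weisfeiler-Leman dimension of finite groups has order `log n`

(1) For every `k ≥ 1` there are two non-isomorphic groups of order `3^(256 k + 16)` that are not
distinguished by the `(2k-1)`-dimensional Weisfeiler-Leman algorithm for groups (with the strongest
initial colouring).
(2) `k`-dimensional Weisfeiler-Leman identifies all groups of order at most `2^k`.
-/

namespace Pool.Agent.Results.MP_128e7d_lc.FiniteGroups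

open Pool.Agent.SRGWL

theorem result :
    (∀ k : ℕ, 1 ≤ k →
      ∃ (H₁ H₂ : Type) (_ : Group H₁) (_ : Group H₂) (_ : Fintype H₁) (_ : Fintype H₂),
        Fintype.card H₁ = 3 ^ (256 * k + 16) ∧ Fintype.card H₂ = 3 ^ (256 * k + 16) ∧
        IsEmpty (H₁ ≃* H₂) ∧ GWLEquiv (2 * k - 1) H₁ H₂) ∧
    (∀ (H H' : Type) [Group H] [Group H'] [Fintype H] [Fintype H'] (k : ℕ), 1 ≤ k →
      Fintype.card H ≤ 2 ^ k → GWLEquiv k H H' → Nonempty (H ≃* H')) := by
  refine ⟨fun k hk => ?_, fun H H' _ _ _ _ k hk hc h => identifies hk hc h⟩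
  obtain ⟨A, D, hc0, hcD, hiso, ⟨S⟩⟩ := exists_groups k hk
  exact ⟨G A 0, G A D, inferInstance, inferInstance, inferInstance, inferInstance,
    by rw [← Nat.card_eq_fintype_card, hc0], by rw [← Nat.card_eq_fintype_card, hcD], hiso,
    gwlEquiv_of_sys S (by omega)⟩

end Pool.Agent.Results.MP_128e7d_lc.FiniteGroups
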