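import Pool.Agent.CRH.Auto

/-!
# Colour refinement solves every random graph with independent edges and enough noise

`prob x Φ` is the probability of the property `Φ` for the random graph on `Fin n` in which every pair
`e` of different vertices is an edge with probability `x e`, independently. `col G k v` is the colour
of `v` after `k` rounds of colour refinement, `hist G k` the multiset of the colours of all vertices.
`Solved G`: the colours after `n` rounds are pairwise different, `G'` is isomorphic to `G` if and only
if `hist G (n + 1) = hist G' (n + 1)`, and `G` has no nontrivial automorphism.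

Part 1: it is enough that the noise `∑_u min (x(vu), 1 - x(vu))` at every vertex `v` is at least
`C log n`. No further assumption on the edge probabilities is made; this contains the smoothed analysis
of graph isomorphism for an arbitrary graph `G₀` with noise on an arbitrary sparse host graph.
Part 2: the order `log n` is optimal: if all expected degrees are at most `(log n) / 4` there are two
isolated vertices with high probability.
-/

namespace Pool.Agent.Results.MP_128e7d_lc.IndependentEdges

open Pool.Agent.CRH

theorem result :
    (∀ A : ℕ, ∃ C : ℕ, ∀ n : ℕ, 2 ≤ n → ∀ x : Sym2 (Fin n) → ℝ,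
      (∀ e, 0 ≤ x e) → (∀ e, x e ≤ 1) →
      (∀ v : Fin n, C * Real.log n ≤
        ∑ u ∈ Finset.univ.erase v, min (x s(v, u)) (1 - x s(v, u))) →
      1 - 1 / (n : ℝ) ^ A ≤ prob x Solved) ∧
    (∀ n : ℕ, 2 ≤ n → ∀ x : Sym2 (Fin n) → ℝ, (∀ e, 0 ≤ x e) → (∀ e, x e ≤ 1 / 2) →
      (∀ v : Fin n, ∑ u ∈ Finset.univ.erase v, x s(v, u) ≤ Real.log n / 4) →
      prob x (fun G : SimpleGraph (Fin n) => (∃ k, Function.Injective (col G k)) ∨
        ∀ (σ : G ≃g G) (v : Fin n), σ v = v) ≤ (2 + Real.log n) / Real.sqrt n) :=
  ⟨upper, lower⟩

end Pool.Agent.Results.MP_128e7d_lc.IndependentEdges
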