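import Pool.Agent.LWP.Final

/-!
# Graph isomorphism and logics with linear-algebraic and isomorphism quantifiers

`Fml K D` is the infinitary counting logic with `K` variables, extended by
* `slv`: solvability of definable systems of linear equations over arbitrary rings,
* `sim`: simultaneous similarity of definable families of matrices, on definable quotients, over all
  fields, all finite rings and more generally all rings that contain `1 / 2` or `1 / 3` or have
  positive characteristic,
* `iso`: isomorphism quantifiers for definable arc-coloured digraphs, on definable quotients, whose
  components have no large alternating section in the stabilisers of their vertices.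

There is a class `C` of graphs on which isomorphism is decided in polynomial time (even by a
complete invariant `A`), whereas for all `K` and `D` there are two non-isomorphic graphs in `C` with
the same theory.
-/

set_option autoImplicit false

namespace Pool.Agent.Results.MP_128e7d_lc.LinearAlgebraLogic

open Pool.Agent.LWL

/-- `f` is computed by a Turing machine in polynomial time -/
def PTime (f : List Bool → List Bool) : Prop :=
  Nonempty (Turing.TM2ComputableInPolyTime (fun w : List Bool => w) (fun w : List Bool => w) f)

open Classical in
/-- the adjacency matrix of a graph, row by row -/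
noncomputable def graphCode {n : ℕ} (G : SimpleGraph (Fin n)) : List Bool :=
  (List.finRange n).flatMap (fun i => (List.finRange n).map (fun j => decide (G.Adj i j)))

theorem result : ∃ (C : ∀ V : Type, SimpleGraph V → Prop) (A : List Bool → List Bool),
    (∀ (V W : Type) (G : SimpleGraph V) (H : SimpleGraph W), C V G → Nonempty (G ≃g H) → C W H) ∧
    PTime A ∧
    (∀ (n m : ℕ) (G : SimpleGraph (Fin n)) (H : SimpleGraph (Fin m)), C (Fin n) G → C (Fin m) H →
      (A (graphCode G) = A (graphCode H) ↔ Nonempty (G ≃g H))) ∧
    ∀ K D : ℕ, ∃ (V : Type) (_ : Fintype V) (G H : SimpleGraph V), C V G ∧ C V H ∧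
      Fintype.card V ≤ 2 ^ (2 ^ (84 * (K + 1)) * (D + 1)) ∧
      IsEmpty (G ≃g H) ∧ SameTheory K D G H := by
  obtain ⟨h1, h2, h3, h4⟩ := Pool.Agent.LWP.final
  exact ⟨Pool.Agent.LWP.Cls, _, h2, h1, h3, h4⟩

end Pool.Agent.Results.MP_128e7d_lc.LinearAlgebraLogic
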