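import Mathlib
import Pool.Agent.Hhelper93.GIReadOnce

set_option autoImplicit false

open Finset

namespace Pool.Agent.Results.MP_128e7d_lc.Oblivious

open Pool.Agent.Results.MP_128e7d_lc.ReadOnce

/-- A branching program is oblivious of length at most `T`: there is a fixed sequence of `T`
variables and an assignment of times to the nodes such that a test made at time `t` is a test of
the `t`-th variable of the sequence, and time moves forward (strictly so at tests). The same
variable may occur many times in the sequence. -/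
def IsOblivious {X : Type} (P : BranchingProgram X) (T : ℕ) : Prop :=
  ∃ (order : Fin T → X) (time : P.Node → ℕ),
    (∀ u v, P.Edge u none v → time u ≤ time v) ∧
    (∀ u v x b, P.Edge u (some (x, b)) v →
      ∃ h : time u < T, x = order ⟨time u, h⟩ ∧ time u < time v)

/-! ## Segments of a path -/

section segments

variable {X : Type} {P : BranchingProgram X} {T : ℕ} (order : Fin T → X) (time : P.Node → ℕ)

/-- `SegPath lo hi a u v`: some path from `u` to `v` has all its tests satisfied by `a`, and each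
tested variable is read at some time in `[lo, hi)`. -/
def SegPath (lo hi : ℕ) (a : X → Bool) (u v : P.Node) : Prop :=
  ∃ L, P.Path u L v ∧ ∀ t ∈ L, a t.1 = t.2 ∧ ∃ s : Fin T, lo ≤ s ∧ (s : ℕ) < hi ∧ order s = t.1

lemma segPath_refl (lo hi : ℕ) (a : X → Bool) (u : P.Node) : SegPath order lo hi a u u :=
  ⟨[], BranchingProgram.Path.refl u, by simp⟩

/-- first part of a path -/
lemma cut_path (h1 : ∀ u v, P.Edge u none v → time u ≤ time v)
    (h2 : ∀ u v x b, P.Edge u (some (x, b)) v →
      ∃ h : time u < T, x = order ⟨time u, h⟩ ∧ time u < time v)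
    (lo hi : ℕ) (a : X → Bool) {u w : P.Node} {L : List (X × Bool)}
    (hL : P.Path u L w) (ha : ∀ t ∈ L, a t.1 = t.2) (hlo : lo ≤ time u) :
    ∃ v L', SegPath order lo hi a u v ∧ P.Path v L' w ∧ (∀ t ∈ L', a t.1 = t.2) ∧
      (hi ≤ time v ∨ L' = []) := by
  induction hL with
  | refl u => exact ⟨u, [], segPath_refl order lo hi a u, BranchingProgram.Path.refl u, by simp, Or.inr rfl⟩
  | @guess u v w L he hp ih =>
    by_cases hu : hi ≤ time u
    · exact ⟨u, L, segPath_refl order lo hi a u, BranchingProgram.Path.guess he hp, ha, Or.inl hu⟩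
    · obtain ⟨v', L', ⟨M, hM, hMa⟩, hp', ha', ht'⟩ := ih ha (hlo.trans (h1 _ _ he))
      exact ⟨v', L', ⟨M, BranchingProgram.Path.guess he hM, hMa⟩, hp', ha', ht'⟩
  | @test u v w x b L he hp ih =>
    by_cases hu : hi ≤ time u
    · exact ⟨u, (x, b) :: L, segPath_refl order lo hi a u, BranchingProgram.Path.test he hp, ha,
        Or.inl hu⟩
    · obtain ⟨hT, hx, hlt⟩ := h2 _ _ _ _ he
      obtain ⟨v', L', ⟨M, hM, hMa⟩, hp', ha', ht'⟩ :=
        ih (fun t ht => ha t (List.mem_cons_of_mem _ ht)) (hlo.trans hlt.le)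
      refine ⟨v', L', ⟨(x, b) :: M, BranchingProgram.Path.test he hM, ?_⟩, hp', ha', ht'⟩
      intro t ht
      rcases List.mem_cons.1 ht with rfl | ht
      · exact ⟨ha _ (List.mem_cons_self ..), ⟨time u, hT⟩, hlo, by simpa using hu, hx.symm⟩
      · exact hMa t ht

/-- a trace of an input -/
def Trace (q r : ℕ) (a : X → Bool) (v : Fin (r + 1) → P.Node) : Prop :=
  v 0 = P.start ∧
  (∀ j : Fin r, SegPath order (j * q) ((j + 1) * q) a (v j.castSucc) (v j.succ)) ∧
  P.Path (v (Fin.last r)) [] P.accept

lemma exists_trace_aux (h1 : ∀ u v, P.Edge u none v → time u ≤ time v)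
    (h2 : ∀ u v x b, P.Edge u (some (x, b)) v →
      ∃ h : time u < T, x = order ⟨time u, h⟩ ∧ time u < time v)
    (q : ℕ) (a : X → Bool) :
    ∀ (r j : ℕ) (u w : P.Node) (L : List (X × Bool)), P.Path u L w → (∀ t ∈ L, a t.1 = t.2) →
      (j * q ≤ time u ∨ L = []) → 
      ∃ v : Fin (r + 1) → P.Node, v 0 = u ∧
        (∀ i : Fin r, SegPath order ((j + i) * q) ((j + i + 1) * q) a (v i.castSucc) (v i.succ)) ∧
        ∃ L', P.Path (v (Fin.last r)) L' w ∧ ((j + r) * q ≤ time (v (Fin.last r)) ∨ L' = []) := by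
  intro r
  induction r with
  | zero =>
    intro j u w L hL ha hj
    refine ⟨fun _ => u, rfl, fun i => i.elim0, L, hL, ?_⟩
    simpa using hj
  | succ r ih =>
    intro j u w L hL ha hj
    -- cut off the first segment
    obtain ⟨v1, L', hs, hp, ha', ht⟩ : ∃ v1 L', SegPath order (j * q) ((j + 1) * q) a u v1 ∧
        P.Path v1 L' w ∧ (∀ t ∈ L', a t.1 = t.2) ∧ ((j + 1) * q ≤ time v1 ∨ L' = []) := by
      rcases hj with hj | rfl
      · exact cut_path order time h1 h2 (j * q) ((j + 1) * q) a hL ha hj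
      · exact ⟨u, [], segPath_refl order _ _ a u, hL, by simp, Or.inr rfl⟩
    obtain ⟨v, hv0, hv1, L'', hv2, hv3⟩ := ih (j + 1) v1 w L' hp ha' ht
    refine ⟨Fin.cons u v, by simp, ?_, L'', ?_, ?_⟩
    · intro i
      refine Fin.cases ?_ (fun i => ?_) i
      · simp only [Fin.castSucc_zero, Fin.cons_zero, Fin.succ_zero_eq_one, Fin.val_zero, add_zero]
        have : (Fin.cons u v : Fin (r + 1 + 1) → P.Node) 1 = v 0 := by
          rw [← Fin.succ_zero_eq_one, Fin.cons_succ]
        rw [this, hv0]
        exact hs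
      · have e1 : (Fin.cons u v : Fin (r + 1 + 1) → P.Node) i.succ.castSucc = v i.castSucc := by
          rw [← Fin.succ_castSucc, Fin.cons_succ]
        have e2 : (Fin.cons u v : Fin (r + 1 + 1) → P.Node) i.succ.succ = v i.succ := by
          rw [Fin.cons_succ]
        rw [e1, e2]
        have h3 := hv1 i
        have e3 : j + 1 + (i : ℕ) = j + ((i.succ : Fin (r + 1)) : ℕ) := by simp; omega
        rw [e3] at h3
        exact h3
    · have : (Fin.cons u v : Fin (r + 1 + 1) → P.Node) (Fin.last (r + 1)) = v (Fin.last r) := by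
        rw [← Fin.succ_last, Fin.cons_succ]
      rw [this]
      exact hv2
    · have : (Fin.cons u v : Fin (r + 1 + 1) → P.Node) (Fin.last (r + 1)) = v (Fin.last r) := by
        rw [← Fin.succ_last, Fin.cons_succ]
      rw [this]
      have e3 : j + 1 + r = j + (r + 1) := by omega
      rw [e3] at hv3
      exact hv3

lemma path_nil_of_time (h1 : ∀ u v, P.Edge u none v → time u ≤ time v)
    (h2 : ∀ u v x b, P.Edge u (some (x, b)) v →
      ∃ h : time u < T, x = order ⟨time u, h⟩ ∧ time u < time v)
    {u w : P.Node} {L : List (X × Bool)} (hL : P.Path u L w) (hu : T ≤ time u) : L = [] := by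
  induction hL with
  | refl u => rfl
  | guess he hp ih => exact ih (hu.trans (h1 _ _ he))
  | test he hp ih =>
    obtain ⟨hT, -⟩ := h2 _ _ _ _ he
    omega

lemma exists_trace (h1 : ∀ u v, P.Edge u none v → time u ≤ time v)
    (h2 : ∀ u v x b, P.Edge u (some (x, b)) v →
      ∃ h : time u < T, x = order ⟨time u, h⟩ ∧ time u < time v)
    (q r : ℕ) (hqr : T ≤ r * q) (a : X → Bool) (ha : P.Accepts a) :
    ∃ v : Fin (r + 1) → P.Node, Trace order q r a v := by
  obtain ⟨L, hL, hLa⟩ := ha
  obtain ⟨v, hv0, hv1, L', hv2, hv3⟩ := exists_trace_aux order time h1 h2 q a r 0 _ _ L hL hLa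
    (Or.inl (by simp))
  refine ⟨v, hv0, ?_, ?_⟩
  · intro j
    have := hv1 j
    simpa using this
  · have : L' = [] := by
      rcases hv3 with h | h
      · exact path_nil_of_time order time h1 h2 hv2 (by rw [zero_add] at h; omega)
      · exact h
    rw [this] at hv2
    exact hv2

lemma path_of_segments {r : ℕ} (v : Fin (r + 1) → P.Node) (b : X → Bool)
    (h : ∀ j : Fin r, ∃ L, P.Path (v j.castSucc) L (v j.succ) ∧ ∀ t ∈ L, b t.1 = t.2) :
    ∃ L, P.Path (v 0) L (v (Fin.last r)) ∧ ∀ t ∈ L, b t.1 = t.2 := by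
  induction r with
  | zero => exact ⟨[], BranchingProgram.Path.refl _, by simp⟩
  | succ r ih =>
    obtain ⟨L, hL, hLb⟩ := ih (fun j => v j.castSucc) (fun j => by
      have := h j.castSucc
      rw [Fin.succ_castSucc] at this
      exact this)
    obtain ⟨L', hL', hLb'⟩ := h (Fin.last r)
    refine ⟨L ++ L', ?_, ?_⟩
    · have e : (Fin.last r).succ = Fin.last (r + 1) := Fin.succ_last r
      rw [e] at hL'
      exact hL.append hL'
    · intro t ht
      rcases List.mem_append.1 ht with ht | ht
      · exact hLb t ht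
      · exact hLb' t ht

open Classical in
/-- the segments in which a variable is read -/
noncomputable def touch (q r : ℕ) (x : X) : Finset (Fin r) :=
  {j | ∃ s : Fin T, (j : ℕ) * q ≤ s ∧ (s : ℕ) < (j + 1) * q ∧ order s = x}

/-- mixing two inputs with the same trace -/
lemma mix_accepts {q r : ℕ} {a a' : X → Bool} {v : Fin (r + 1) → P.Node}
    (h : Trace order q r a v) (h' : Trace order q r a' v) (I : Finset (Fin r))
    (b : X → Bool)
    (hb : ∀ x, ∀ j ∈ touch order q r x, (j ∈ I → b x = a x) ∧ (j ∉ I → b x = a' x)) :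
    P.Accepts b := by
  classical
  obtain ⟨L, hL, hLb⟩ := path_of_segments (P := P) v b (by
    intro j
    by_cases hj : j ∈ I
    · obtain ⟨L, hL, hLa⟩ := h.2.1 j
      refine ⟨L, hL, fun t ht => ?_⟩
      obtain ⟨h1, s, h2, h3, h4⟩ := hLa t ht
      rw [(hb t.1 j (by simp only [touch, Finset.mem_filter, Finset.mem_univ, true_and]; exact ⟨s, h2, h3, h4⟩)).1 hj, h1]
    · obtain ⟨L, hL, hLa⟩ := h'.2.1 j
      refine ⟨L, hL, fun t ht => ?_⟩
      obtain ⟨h1, s, h2, h3, h4⟩ := hLa t ht
      rw [(hb t.1 j (by simp only [touch, Finset.mem_filter, Finset.mem_univ, true_and]; exact ⟨s, h2, h3, h4⟩)).2 hj, h1])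
  refine ⟨L ++ [], ?_, by simpa using hLb⟩
  rw [h.1] at hL
  exact hL.append h.2.2

end segments

/-! ## Counting for a fixed permutation -/

section fixed

variable {n : ℕ}

/-- pairs touching the common part -/
def common (S S' : Finset (Var n)) (π : Equiv.Perm (Fin n)) : Finset (Pr n) :=
  {e | (Sum.inl e ∉ S ∧ Sum.inl e ∉ S') ∨ (Sum.inr (pact π e) ∉ S ∧ Sum.inr (pact π e) ∉ S')}

/-- first variable of the `e`-th equation -/
def al (S : Finset (Var n)) (U : Finset (Pr n)) (e : Pr n) : Pr n ⊕ {e : Pr n // e ∉ U} :=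
  if Sum.inl e ∈ S then Sum.inl e else if h : e ∈ U then Sum.inl e else Sum.inr ⟨e, h⟩

/-- second variable of the `e`-th equation -/
def be (S : Finset (Var n)) (U : Finset (Pr n)) (π σ : Equiv.Perm (Fin n)) (e : Pr n) :
    Pr n ⊕ {e : Pr n // e ∉ U} :=
  if Sum.inr (pact σ e) ∈ S then Sum.inl (pact π⁻¹ (pact σ e))
  else if h : pact π⁻¹ (pact σ e) ∈ U then Sum.inl (pact π⁻¹ (pact σ e))
  else Sum.inr ⟨pact π⁻¹ (pact σ e), h⟩

lemma al_inj (S : Finset (Var n)) (U : Finset (Pr n)) : Function.Injective (al S U) := by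
  intro e e' h
  unfold al at h
  split_ifs at h <;> simpa using h

lemma be_inj (S : Finset (Var n)) (U : Finset (Pr n)) (π σ : Equiv.Perm (Fin n)) :
    Function.Injective (be S U π σ) := by
  intro e e' h
  unfold be at h
  split_ifs at h <;> simpa using h

lemma fixed_core (S S' : Finset (Var n)) (hSS : Disjoint S S') (π : Equiv.Perm (Fin n))
    (R : Finset (Pr n → Bool))
    (hmix : ∀ G ∈ R, ∀ G' ∈ R, (∀ x, x ∉ S → x ∉ S' → inp π G x = inp π G' x) →
      Isomorphic n (fun x => if x ∈ S then inp π G x else inp π G' x)) :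
    #R ^ 4 * 2 ^ #{e | Sum.inl e ∈ S ∧ Sum.inr (pact π e) ∈ S'} ≤
      n.factorial ^ 2 * 2 ^ (4 * Fintype.card (Pr n)) := by
  classical
  set M := Fintype.card (Pr n) with hM
  set U := common S S' π with hU
  have hUM : #U ≤ M := Finset.card_le_univ U
  let res : (Pr n → Bool) → ({e : Pr n // e ∈ U} → Bool) := fun G e => G e.1
  -- pairs with the same restriction
  set Q : Finset ((Pr n → Bool) × (Pr n → Bool)) := {p ∈ R ×ˢ R | res p.1 = res p.2} with hQ
  have hcs : #R ^ 2 ≤ 2 ^ #U * #Q := by
    have h1 : #R = ∑ z, #{G ∈ R | res G = z} :=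
      Finset.card_eq_sum_card_fiberwise (f := res) (t := Finset.univ) (by intro x _; simp)
    have h2 : #Q = ∑ z, #{G ∈ R | res G = z} ^ 2 := by
      rw [Finset.card_eq_sum_card_fiberwise (f := fun p => res p.1) (s := Q) (t := Finset.univ)
        (by intro x _; simp)]
      refine Finset.sum_congr rfl fun z _ => ?_
      rw [pow_two, ← Finset.card_product]
      congr 1
      ext ⟨G, G'⟩
      simp only [hQ, Finset.mem_filter, Finset.mem_product]
      constructor
      · rintro ⟨⟨⟨h3, h4⟩, h5⟩, h6⟩
        exact ⟨⟨h3, h6⟩, ⟨h4, h5 ▸ h6⟩⟩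
      · rintro ⟨⟨h3, h6⟩, ⟨h4, h7⟩⟩
        exact ⟨⟨⟨h3, h4⟩, h6.trans h7.symm⟩, h6⟩
    have h3 := sq_sum_le_card_mul_sum_sq (s := (Finset.univ : Finset ({e : Pr n // e ∈ U} → Bool)))
      (f := fun z => #{G ∈ R | res G = z})
    rw [← h1, ← h2] at h3
    have h4 : #(Finset.univ : Finset ({e : Pr n // e ∈ U} → Bool)) = 2 ^ #U := by
      rw [Finset.card_univ, Fintype.card_fun, Fintype.card_bool, Fintype.card_coe]
    rw [h4] at h3
    exact h3
  let sol : Equiv.Perm (Fin n) → Finset (Pr n ⊕ {e : Pr n // e ∉ U} → Bool) := fun σ =>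
    {z | ∀ e, z (be S U π σ e) = z (al S U e)}
  obtain ⟨σ, -, hσ⟩ := Finset.exists_max_image (Finset.univ : Finset (Equiv.Perm (Fin n)))
    (fun σ => #(sol σ)) ⟨1, Finset.mem_univ _⟩
  have h1 : #Q ≤ n.factorial * #(sol σ) := by
    let F : (Pr n → Bool) × (Pr n → Bool) → (Pr n ⊕ {e : Pr n // e ∉ U} → Bool) :=
      fun p => Sum.elim p.1 (fun e => p.2 e.1)
    have h2 : Q.image F ⊆ (Finset.univ : Finset (Equiv.Perm (Fin n))).biUnion sol := by
      intro z hz
      rw [Finset.mem_image] at hz
      obtain ⟨⟨G, G'⟩, hGG, rfl⟩ := hz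
      simp only [hQ, Finset.mem_filter, Finset.mem_product] at hGG
      obtain ⟨⟨hG, hG'⟩, hres⟩ := hGG
      have hU' : ∀ e ∈ U, G e = G' e := fun e he => congrFun hres ⟨e, he⟩
      have h3 := hmix G hG G' hG' (by
        intro x hx hx'
        cases x with
        | inl e =>
          have : e ∈ U := by
            simp only [hU, common, Finset.mem_filter, Finset.mem_univ, true_and]
            exact Or.inl ⟨hx, hx'⟩
          simpa [inp] using hU' e this
        | inr e =>
          have : pact π⁻¹ e ∈ U := by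
            simp only [hU, common, Finset.mem_filter, Finset.mem_univ, true_and]
            right
            rw [pact_inv']
            exact ⟨hx, hx'⟩
          simpa [inp] using hU' _ this)
      rw [isomorphic_iff] at h3
      obtain ⟨τ, hτ⟩ := h3
      rw [Finset.mem_biUnion]
      refine ⟨τ, Finset.mem_univ _, ?_⟩
      simp only [sol, Finset.mem_filter, Finset.mem_univ, true_and]
      intro e
      have h4 := hτ e
      have e1 : F (G, G') (be S U π τ e) =
          (if Sum.inr (pact τ e) ∈ S then inp π G (Sum.inr (pact τ e))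
            else inp π G' (Sum.inr (pact τ e))) := by
        unfold be
        split_ifs with h5 h6
        · simp [F, inp]
        · simp only [F, inp, Sum.elim_inl, Sum.elim_inr]
          exact hU' _ h6
        · simp [F, inp]
      have e2 : F (G, G') (al S U e) =
          (if Sum.inl e ∈ S then inp π G (Sum.inl e) else inp π G' (Sum.inl e)) := by
        unfold al
        split_ifs with h5 h6
        · simp [F, inp]
        · simp only [F, inp, Sum.elim_inl]
          exact hU' _ h6
        · simp [F, inp]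
      rw [e1, e2]
      exact h4
    have h3 : #(Q.image F) = #Q := by
      apply Finset.card_image_of_injOn
      rintro ⟨G, G'⟩ hp ⟨K, K'⟩ hp' h
      simp only [hQ, Finset.coe_filter, Finset.mem_product, Set.mem_ofPred_eq] at hp hp'
      have h5 : G = K := by
        funext e
        have := congrFun h (Sum.inl e)
        simpa [F] using this
      have h6 : G' = K' := by
        funext e
        by_cases he : e ∈ U
        · have e1 := congrFun hp.2 ⟨e, he⟩
          have e2 := congrFun hp'.2 ⟨e, he⟩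
          simp only [res] at e1 e2
          rw [← e1, ← e2, h5]
        · have := congrFun h (Sum.inr ⟨e, he⟩)
          simpa [F] using this
      rw [h5, h6]
    rw [← h3]
    refine (Finset.card_le_card h2).trans (Finset.card_biUnion_le.trans ?_)
    refine (Finset.sum_le_card_nsmul _ _ (#(sol σ)) ?_).trans (le_of_eq ?_)
    · intro τ hτ
      exact hσ τ hτ
    · rw [smul_eq_mul, Finset.card_univ, Fintype.card_perm, Fintype.card_fin]
  have h2 : #(sol σ) ^ 2 * 2 ^ #{e | al S U e ≠ be S U π σ e} ≤
      2 ^ (2 * Fintype.card (Pr n ⊕ {e : Pr n // e ∉ U})) :=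
    card_solutions_sq_le (al S U) (be S U π σ) (al_inj S U) (be_inj S U π σ)
  have h3 : #{e | Sum.inl e ∈ S ∧ Sum.inr (pact π e) ∈ S'} ≤ #{e | al S U e ≠ be S U π σ e} := by
    apply Finset.card_le_card
    intro e he
    simp only [Finset.mem_filter, Finset.mem_univ, true_and] at he ⊢
    obtain ⟨he1, he2⟩ := he
    intro h
    unfold al be at h
    rw [if_pos he1] at h
    split_ifs at h with h5 h6
    · have h7 : pact π⁻¹ (pact σ e) = e := (Sum.inl_injective h).symm
      have h8 : pact σ e = pact π e := by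
        rw [← pact_inv' π (pact σ e), h7]
      rw [h8] at h5
      exact (Finset.disjoint_left.1 hSS) h5 he2
    · have h7 : pact π⁻¹ (pact σ e) = e := (Sum.inl_injective h).symm
      rw [h7] at h6
      simp only [hU, common, Finset.mem_filter, Finset.mem_univ, true_and] at h6
      rcases h6 with ⟨h6, -⟩ | ⟨-, h6⟩
      · exact h6 he1
      · exact h6 he2
  have h4 : Fintype.card (Pr n ⊕ {e : Pr n // e ∉ U}) = M + (M - #U) := by
    have h5 : Fintype.card {e : Pr n // e ∉ U} = M - #U := by
      rw [Fintype.card_of_subtype Uᶜ (by simp), Finset.card_compl]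
    rw [Fintype.card_sum, h5]
  rw [h4] at h2
  set d := #{e | Sum.inl e ∈ S ∧ Sum.inr (pact π e) ∈ S'} with hd
  set k := #{e | al S U e ≠ be S U π σ e} with hk
  calc #R ^ 4 * 2 ^ d = (#R ^ 2) ^ 2 * 2 ^ d := by ring
    _ ≤ (2 ^ #U * #Q) ^ 2 * 2 ^ k := by
        refine Nat.mul_le_mul (Nat.pow_le_pow_left hcs 2) (Nat.pow_le_pow_right (by norm_num) h3)
    _ ≤ (2 ^ #U * (n.factorial * #(sol σ))) ^ 2 * 2 ^ k := by gcongr
    _ = 2 ^ (2 * #U) * n.factorial ^ 2 * (#(sol σ) ^ 2 * 2 ^ k) := by
        have h6 : 2 ^ (2 * #U) = (2 ^ #U) ^ 2 := by rw [← pow_mul, mul_comm]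
        rw [h6]; ring
    _ ≤ 2 ^ (2 * #U) * n.factorial ^ 2 * 2 ^ (2 * (M + (M - #U))) := Nat.mul_le_mul_left _ h2
    _ = n.factorial ^ 2 * 2 ^ (4 * M) := by
        have : 4 * M = 2 * #U + 2 * (M + (M - #U)) := by omega
        rw [this, pow_add]; ring

end fixed

/-! ## Choosing the segments and the permutation -/

section choice

variable {n : ℕ}

/-- For a fixed pair, the images under all permutations are equidistributed. -/
lemma card_perm_pair (e e' : Pr n) :
    #{π : Equiv.Perm (Fin n) | pact π e = e'} * Fintype.card (Pr n) = n.factorial := by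
  classical
  have htrans : ∀ f : Pr n, ∃ τ : Equiv.Perm (Fin n), pact τ e' = f := by
    intro f
    obtain ⟨e', he'⟩ := e'
    obtain ⟨f, hf⟩ := f
    induction e' using Sym2.ind with
    | _ i j =>
      induction f using Sym2.ind with
      | _ k l =>
        have hij : i ≠ j := by
          intro h; exact he' (by rw [Sym2.mk_isDiag_iff]; exact h)
        have hkl : k ≠ l := by
          intro h; exact hf (by rw [Sym2.mk_isDiag_iff]; exact h)
        let a := Equiv.swap i k
        have ha : a j ≠ k := by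
          intro h
          have : a j = a i := by rw [h]; exact (Equiv.swap_apply_left i k).symm
          exact hij (a.injective this).symm
        let b := Equiv.swap (a j) l
        refine ⟨b * a, ?_⟩
        apply Subtype.ext
        have h1 : (b * a) i = k := by
          change b (a i) = k
          have : a i = k := Equiv.swap_apply_left i k
          rw [this]
          exact Equiv.swap_apply_of_ne_of_ne ha.symm hkl
        have h2 : (b * a) j = l := by
          change b (a j) = l
          exact Equiv.swap_apply_left _ _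
        change Sym2.map (b * a) s(i, j) = s(k, l)
        rw [Sym2.map_mk, h1, h2]
  have hconst : ∀ f : Pr n, #{π : Equiv.Perm (Fin n) | pact π e = f} =
      #{π : Equiv.Perm (Fin n) | pact π e = e'} := by
    intro f
    obtain ⟨τ, hτ⟩ := htrans f
    refine Finset.card_bij' (fun π _ => τ⁻¹ * π) (fun π _ => τ * π) ?_ ?_ ?_ ?_
    · intro π hπ
      simp only [Finset.mem_filter, Finset.mem_univ, true_and] at hπ ⊢
      rw [pact_mul, hπ, ← hτ, pact_inv]
    · intro π hπ
      simp only [Finset.mem_filter, Finset.mem_univ, true_and] at hπ ⊢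
      rw [pact_mul, hπ, hτ]
    · intro π _
      simp
    · intro π _
      simp
  have hsum : Fintype.card (Equiv.Perm (Fin n)) =
      ∑ f : Pr n, #{π : Equiv.Perm (Fin n) | pact π e = f} := by
    rw [← Finset.card_univ]
    exact Finset.card_eq_sum_card_fiberwise (f := fun π => pact π e) (t := Finset.univ)
      (by intro x _; simp)
  rw [Fintype.card_perm, Fintype.card_fin, Finset.sum_congr rfl (fun f _ => hconst f),
    Finset.sum_const, smul_eq_mul, Finset.card_univ] at hsum
  rw [hsum, mul_comm]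

/-- number of sets of segments containing `A` and avoiding `B` -/
lemma card_between {r : ℕ} (A B : Finset (Fin r)) (hAB : Disjoint A B) :
    #{I : Finset (Fin r) | A ⊆ I ∧ Disjoint B I} * 2 ^ (#A + #B) = 2 ^ r := by
  classical
  have h1 : ({I : Finset (Fin r) | A ⊆ I ∧ Disjoint B I} : Finset (Finset (Fin r))) =
      Finset.Icc A Bᶜ := by
    ext I
    simp only [Finset.mem_filter, Finset.mem_univ, true_and, Finset.mem_Icc]
    constructor
    · rintro ⟨h1, h2⟩
      exact ⟨h1, Finset.subset_compl_iff_disjoint_left.2 h2⟩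
    · rintro ⟨h1, h2⟩
      exact ⟨h1, Finset.subset_compl_iff_disjoint_left.1 h2⟩
  have hsub : A ⊆ Bᶜ := Finset.subset_compl_iff_disjoint_left.2 hAB.symm
  rw [h1, Finset.card_Icc_finset hsub, Finset.card_compl, Fintype.card_fin, ← pow_add]
  congr 1
  have h2 : #A ≤ #Bᶜ := Finset.card_le_card hsub
  rw [Finset.card_compl, Fintype.card_fin] at h2
  have h3 : #B ≤ r := by
    have := Finset.card_le_univ B
    rwa [Fintype.card_fin] at this
  omega

/-- number of times a variable is read -/
def reads {X : Type} [DecidableEq X] {T : ℕ} (order : Fin T → X) (x : X) : ℕ := #{s | order s = x}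

lemma card_touch_le {X : Type} [DecidableEq X] {T : ℕ} (order : Fin T → X) (q r : ℕ) (hq : 0 < q)
    (hT : T ≤ r * q) (x : X) : #(touch order q r x) ≤ reads order x := by
  classical
  have hr : ∀ s : Fin T, (s : ℕ) / q < r := fun s =>
    (Nat.div_lt_iff_lt_mul hq).2 (lt_of_lt_of_le s.2 hT)
  have h1 : touch order q r x ⊆ ({s | order s = x} : Finset (Fin T)).image
      (fun s : Fin T => (⟨(s : ℕ) / q, hr s⟩ : Fin r)) := by
    intro j hj
    simp only [touch, Finset.mem_filter, Finset.mem_univ, true_and] at hj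
    obtain ⟨s, hs1, hs2, hs3⟩ := hj
    rw [Finset.mem_image]
    refine ⟨s, by simp [hs3], ?_⟩
    apply Fin.ext
    change (s : ℕ) / q = j
    exact Nat.div_eq_of_lt_le hs1 hs2
  exact (Finset.card_le_card h1).trans Finset.card_image_le

/-- few pairs are read often -/
lemma card_few {T k : ℕ} (hk : 1 ≤ k) (order : Fin T → Var n)
    (hT : T ≤ 2 * k * Fintype.card (Pr n)) (ι : Pr n → Var n) (hι : Function.Injective ι) :
    Fintype.card (Pr n) ≤ 2 * #{e | reads order (ι e) ≤ 4 * k} := by
  classical
  have h1 : ∑ e, reads order (ι e) ≤ T := by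
    have h2 : ∑ e, reads order (ι e) = #((Finset.univ : Finset (Pr n)).biUnion (fun e => ({s | order s = ι e} : Finset (Fin T)))) := by
      rw [Finset.card_biUnion]
      · rfl
      · intro e _ e' _ hee
        rw [Function.onFun, Finset.disjoint_filter]
        intro s _ hs hs'
        exact hee (hι (hs.symm.trans hs'))
    rw [h2]
    refine (Finset.card_le_univ _).trans (le_of_eq (Fintype.card_fin T))
  have h3 : #{e | ¬ reads order (ι e) ≤ 4 * k} * (4 * k + 1) ≤ T := by
    refine le_trans ?_ h1
    calc #{e | ¬ reads order (ι e) ≤ 4 * k} * (4 * k + 1)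
        = #{e | ¬ reads order (ι e) ≤ 4 * k} • (4 * k + 1) := by rw [smul_eq_mul]
      _ ≤ ∑ e ∈ ({e | ¬ reads order (ι e) ≤ 4 * k} : Finset (Pr n)), reads order (ι e) := by
          apply Finset.card_nsmul_le_sum
          intro e he
          simp only [Finset.mem_filter, Finset.mem_univ, true_and] at he
          omega
      _ ≤ ∑ e, reads order (ι e) := Finset.sum_le_univ_sum_of_nonneg (fun _ => Nat.zero_le _)
  have h4 : #{e : Pr n | reads order (ι e) ≤ 4 * k} + #{e | ¬ reads order (ι e) ≤ 4 * k} =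
      Fintype.card (Pr n) := by
    rw [Finset.card_filter_add_card_filter_not]
    rfl
  have h5 : 2 * #{e | ¬ reads order (ι e) ≤ 4 * k} ≤ Fintype.card (Pr n) := by
    have h6 : 2 * k * (2 * #{e | ¬ reads order (ι e) ≤ 4 * k}) ≤ 2 * k * Fintype.card (Pr n) := by
      calc 2 * k * (2 * #{e | ¬ reads order (ι e) ≤ 4 * k})
          ≤ #{e | ¬ reads order (ι e) ≤ 4 * k} * (4 * k + 1) := by nlinarith
        _ ≤ T := h3
        _ ≤ 2 * k * Fintype.card (Pr n) := hT
    exact Nat.le_of_mul_le_mul_left h6 (by omega)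
  omega

/-- Choice of segments and permutation. -/
lemma exists_choice {T k : ℕ} (hk : 1 ≤ k) (order : Fin T → Var n)
    (hT : T ≤ 2 * k * Fintype.card (Pr n)) (hM : 32 * k ≤ Fintype.card (Pr n)) (q r : ℕ)
    (hr : r = 64 * k ^ 2) (hq : q = T / (64 * k ^ 2) + 1) :
    ∃ (I : Finset (Fin r)) (π : Equiv.Perm (Fin n)),
      Fintype.card (Pr n) ≤
        #{e | touch order q r (Sum.inl e) ⊆ I ∧ Disjoint (touch order q r (Sum.inr (pact π e))) I} *
          2 ^ (8 * k + 3) := by
  classical
  set M := Fintype.card (Pr n) with hMdef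
  have hq0 : 0 < q := by rw [hq]; positivity
  have hTrq : T ≤ r * q := by
    rw [hr, hq]
    have := Nat.lt_div_mul_add (a := T) (b := 64 * k ^ 2) (by positivity)
    nlinarith
  -- `16 k q ≤ M`
  have hkq : 16 * k * q ≤ M := by
    have h1 : T / (64 * k ^ 2) * (64 * k ^ 2) ≤ T := Nat.div_mul_le_self _ _
    have h2 : 2 * k * (32 * k * (T / (64 * k ^ 2))) ≤ 2 * k * M := by
      calc 2 * k * (32 * k * (T / (64 * k ^ 2))) = T / (64 * k ^ 2) * (64 * k ^ 2) := by ring
        _ ≤ T := h1
        _ ≤ 2 * k * M := hT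
    have h3 : 32 * k * (T / (64 * k ^ 2)) ≤ M := Nat.le_of_mul_le_mul_left h2 (by omega)
    rw [hq]
    nlinarith
  let X0 : Finset (Pr n) := {e | reads order (Sum.inl e) ≤ 4 * k}
  let Y0 : Finset (Pr n) := {e | reads order (Sum.inr e) ≤ 4 * k}
  have hX0 : M ≤ 2 * #X0 := card_few hk order hT Sum.inl Sum.inl_injective
  have hY0 : M ≤ 2 * #Y0 := card_few hk order hT Sum.inr Sum.inr_injective
  -- conflicts
  have hconf : ∀ e ∈ X0, M ≤ 4 * #{e' ∈ Y0 | Disjoint (touch order q r (Sum.inl e)) (touch order q r (Sum.inr e'))} := by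
    intro e he
    have h1 : #{e' ∈ Y0 | ¬ Disjoint (touch order q r (Sum.inl e)) (touch order q r (Sum.inr e'))} ≤ 4 * k * q := by
      -- choose a common reading time
      have h2 : ∀ e' : Pr n, ¬ Disjoint (touch order q r (Sum.inl e)) (touch order q r (Sum.inr e')) →
          ∃ s : Fin T, order s = Sum.inr e' ∧ ∃ j ∈ touch order q r (Sum.inl e),
            (j : ℕ) * q ≤ s ∧ (s : ℕ) < (j + 1) * q := by
        intro e' h
        rw [Finset.not_disjoint_iff] at h
        obtain ⟨j, hj1, hj2⟩ := h
        simp only [touch, Finset.mem_filter, Finset.mem_univ, true_and] at hj2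
        obtain ⟨s, hs1, hs2, hs3⟩ := hj2
        exact ⟨s, hs3, j, hj1, hs1, hs2⟩
      let Sset : Finset (Fin T) := (touch order q r (Sum.inl e)).biUnion
        (fun j => ({s | (j : ℕ) * q ≤ s ∧ (s : ℕ) < (j + 1) * q} : Finset (Fin T)))
      have h3 : #Sset ≤ 4 * k * q := by
        refine Finset.card_biUnion_le.trans ?_
        refine (Finset.sum_le_card_nsmul _ _ q ?_).trans ?_
        · intro j _
          have h4 : #({s | (j : ℕ) * q ≤ s ∧ (s : ℕ) < (j + 1) * q} : Finset (Fin T)) =
              #(({s | (j : ℕ) * q ≤ s ∧ (s : ℕ) < (j + 1) * q} : Finset (Fin T)).image (fun s : Fin T => (s : ℕ))) :=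
            (Finset.card_image_of_injective _ Fin.val_injective).symm
          rw [h4]
          have h5 : (({s | (j : ℕ) * q ≤ s ∧ (s : ℕ) < (j + 1) * q} : Finset (Fin T)).image (fun s : Fin T => (s : ℕ))) ⊆
              Finset.Ico (j * q) ((j + 1) * q) := by
            intro m hm
            rw [Finset.mem_image] at hm
            obtain ⟨s, hs, rfl⟩ := hm
            simpa using hs
          refine (Finset.card_le_card h5).trans ?_
          rw [Nat.card_Ico]
          have : ((j : ℕ) + 1) * q = j * q + q := by ring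
          omega
        · rw [smul_eq_mul]
          refine Nat.mul_le_mul_right _ ?_
          refine (card_touch_le order q r hq0 hTrq _).trans ?_
          simpa [X0] using he
      have h4 : #{e' ∈ Y0 | ¬ Disjoint (touch order q r (Sum.inl e)) (touch order q r (Sum.inr e'))} ≤ #Sset := by
        have h5 : ({e' ∈ Y0 | ¬ Disjoint (touch order q r (Sum.inl e)) (touch order q r (Sum.inr e'))}).image
            (fun e' => (Sum.inr e' : Var n)) ⊆ Sset.image order := by
          intro x hx
          rw [Finset.mem_image] at hx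
          obtain ⟨e', he', rfl⟩ := hx
          rw [Finset.mem_filter] at he'
          obtain ⟨s, hs1, j, hj, hs2, hs3⟩ := h2 e' he'.2
          rw [Finset.mem_image]
          refine ⟨s, ?_, hs1⟩
          simp only [Sset, Finset.mem_biUnion, Finset.mem_filter, Finset.mem_univ, true_and]
          exact ⟨j, hj, hs2, hs3⟩
        have h6 := (Finset.card_le_card h5).trans Finset.card_image_le
        rwa [Finset.card_image_of_injective _ Sum.inr_injective] at h6
      exact h4.trans h3
    have h7 : #{e' ∈ Y0 | Disjoint (touch order q r (Sum.inl e)) (touch order q r (Sum.inr e'))} +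
        #{e' ∈ Y0 | ¬ Disjoint (touch order q r (Sum.inl e)) (touch order q r (Sum.inr e'))} = #Y0 :=
      Finset.card_filter_add_card_filter_not _
    nlinarith
  -- total count
  let Dset : Finset (Fin r) → Equiv.Perm (Fin n) → Finset (Pr n) := fun I π =>
    {e | touch order q r (Sum.inl e) ⊆ I ∧ Disjoint (touch order q r (Sum.inr (pact π e))) I}
  obtain ⟨⟨I, π⟩, -, hmax⟩ := Finset.exists_max_image
    (Finset.univ : Finset (Finset (Fin r) × Equiv.Perm (Fin n))) (fun p => #(Dset p.1 p.2))
    ⟨(∅, 1), Finset.mem_univ _⟩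
  refine ⟨I, π, ?_⟩
  change M ≤ #(Dset I π) * 2 ^ (8 * k + 3)
  have hM0 : 0 < M := by omega
  have hup : ∑ p : Finset (Fin r) × Equiv.Perm (Fin n), #(Dset p.1 p.2) ≤
      (2 ^ r * n.factorial) * #(Dset I π) := by
    refine (Finset.sum_le_card_nsmul _ _ (#(Dset I π)) ?_).trans (le_of_eq ?_)
    · intro p hp
      exact hmax p hp
    · rw [smul_eq_mul, Finset.card_univ, Fintype.card_prod, Fintype.card_finset, Fintype.card_fin,
        Fintype.card_perm, Fintype.card_fin]
  have hsplit : ∑ p : Finset (Fin r) × Equiv.Perm (Fin n), #(Dset p.1 p.2) =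
      ∑ e : Pr n, ∑ e' : Pr n, #{I : Finset (Fin r) | touch order q r (Sum.inl e) ⊆ I ∧
        Disjoint (touch order q r (Sum.inr e')) I} * #{π : Equiv.Perm (Fin n) | pact π e = e'} := by
    have h1 : ∀ p : Finset (Fin r) × Equiv.Perm (Fin n), #(Dset p.1 p.2) =
        ∑ e : Pr n, ∑ e' : Pr n, (if touch order q r (Sum.inl e) ⊆ p.1 ∧
          Disjoint (touch order q r (Sum.inr e')) p.1 then 1 else 0) * (if pact p.2 e = e' then 1 else 0) := by
      intro p
      simp only [Dset]
      rw [Finset.card_filter]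
      refine Finset.sum_congr rfl fun e _ => ?_
      rw [Finset.sum_eq_single (pact p.2 e)]
      · simp
      · intro e' _ he'
        rw [if_neg (Ne.symm he'), mul_zero]
      · intro h
        exact absurd (Finset.mem_univ _) h
    simp only [h1]
    rw [Finset.sum_comm]
    refine Finset.sum_congr rfl fun e _ => ?_
    rw [Finset.sum_comm]
    refine Finset.sum_congr rfl fun e' _ => ?_
    rw [Fintype.sum_prod_type, Finset.card_filter, Finset.card_filter, Finset.sum_mul_sum]
  have hlow : M * n.factorial * 2 ^ r ≤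
      (∑ p : Finset (Fin r) × Equiv.Perm (Fin n), #(Dset p.1 p.2)) * 2 ^ (8 * k + 3) := by
    rw [hsplit]
    -- each good pair contributes at least `n! 2 ^ r / (M 2 ^ (8 k))`
    have h1 : ∀ e ∈ X0, ∀ e' ∈ ({e' ∈ Y0 | Disjoint (touch order q r (Sum.inl e)) (touch order q r (Sum.inr e'))} : Finset (Pr n)),
        n.factorial * 2 ^ r ≤ (#{I : Finset (Fin r) | touch order q r (Sum.inl e) ⊆ I ∧
        Disjoint (touch order q r (Sum.inr e')) I} * #{π : Equiv.Perm (Fin n) | pact π e = e'}) * (M * 2 ^ (8 * k)) := by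
      intro e he e' he'
      rw [Finset.mem_filter] at he'
      have h2 := card_between _ _ he'.2
      have h3 := card_perm_pair e e'
      rw [← hMdef] at h3
      have h4 : #(touch order q r (Sum.inl e)) + #(touch order q r (Sum.inr e')) ≤ 8 * k := by
        have h5 := card_touch_le order q r hq0 hTrq (Sum.inl e)
        have h6 := card_touch_le order q r hq0 hTrq (Sum.inr e')
        have h7 : reads order (Sum.inl e) ≤ 4 * k := by simpa [X0] using he
        have h8 : reads order (Sum.inr e') ≤ 4 * k := by simpa [Y0] using he'.1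
        omega
      calc n.factorial * 2 ^ r
          = (#{π : Equiv.Perm (Fin n) | pact π e = e'} * M) *
            (#{I : Finset (Fin r) | touch order q r (Sum.inl e) ⊆ I ∧
              Disjoint (touch order q r (Sum.inr e')) I} *
                2 ^ (#(touch order q r (Sum.inl e)) + #(touch order q r (Sum.inr e')))) := by
            rw [h2, h3]
        _ ≤ (#{π : Equiv.Perm (Fin n) | pact π e = e'} * M) *
            (#{I : Finset (Fin r) | touch order q r (Sum.inl e) ⊆ I ∧
              Disjoint (touch order q r (Sum.inr e')) I} * 2 ^ (8 * k)) := by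
            gcongr
            norm_num
        _ = _ := by ring
    have h2 : ∀ e ∈ X0, M * (n.factorial * 2 ^ r) ≤
        4 * ((∑ e' : Pr n, #{I : Finset (Fin r) | touch order q r (Sum.inl e) ⊆ I ∧
        Disjoint (touch order q r (Sum.inr e')) I} * #{π : Equiv.Perm (Fin n) | pact π e = e'}) * (M * 2 ^ (8 * k))) := by
      intro e he
      set C := ({e' ∈ Y0 | Disjoint (touch order q r (Sum.inl e)) (touch order q r (Sum.inr e'))} : Finset (Pr n)) with hC
      calc M * (n.factorial * 2 ^ r) ≤ (4 * #C) * (n.factorial * 2 ^ r) :=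
            Nat.mul_le_mul_right _ (hconf e he)
        _ = 4 * (#C • (n.factorial * 2 ^ r)) := by rw [smul_eq_mul]; ring
        _ ≤ 4 * (∑ e' ∈ C, (#{I : Finset (Fin r) | touch order q r (Sum.inl e) ⊆ I ∧
        Disjoint (touch order q r (Sum.inr e')) I} * #{π : Equiv.Perm (Fin n) | pact π e = e'}) * (M * 2 ^ (8 * k))) := by
            apply Nat.mul_le_mul_left
            exact Finset.card_nsmul_le_sum _ _ _ (h1 e he)
        _ ≤ 4 * (∑ e' : Pr n, (#{I : Finset (Fin r) | touch order q r (Sum.inl e) ⊆ I ∧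
        Disjoint (touch order q r (Sum.inr e')) I} * #{π : Equiv.Perm (Fin n) | pact π e = e'}) * (M * 2 ^ (8 * k))) := by
            apply Nat.mul_le_mul_left
            exact Finset.sum_le_univ_sum_of_nonneg (fun _ => Nat.zero_le _)
        _ = _ := by rw [← Finset.sum_mul]
    set f : Pr n → ℕ := fun e => ∑ e' : Pr n, #{I : Finset (Fin r) | touch order q r (Sum.inl e) ⊆ I ∧
        Disjoint (touch order q r (Sum.inr e')) I} * #{π : Equiv.Perm (Fin n) | pact π e = e'} with hf
    have h3 : M * (M * (n.factorial * 2 ^ r)) ≤ M * ((∑ e, f e) * 2 ^ (8 * k + 3)) := by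
      calc M * (M * (n.factorial * 2 ^ r)) ≤ (2 * #X0) * (M * (n.factorial * 2 ^ r)) :=
            Nat.mul_le_mul_right _ hX0
        _ = 2 * (#X0 • (M * (n.factorial * 2 ^ r))) := by rw [smul_eq_mul]; ring
        _ ≤ 2 * ∑ e ∈ X0, 4 * (f e * (M * 2 ^ (8 * k))) := by
            apply Nat.mul_le_mul_left
            exact Finset.card_nsmul_le_sum _ _ _ (fun e he => h2 e he)
        _ ≤ 2 * ∑ e, 4 * (f e * (M * 2 ^ (8 * k))) := by
            apply Nat.mul_le_mul_left
            exact Finset.sum_le_univ_sum_of_nonneg (fun _ => Nat.zero_le _)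
        _ = M * ((∑ e, f e) * 2 ^ (8 * k + 3)) := by
            rw [← Finset.mul_sum, ← Finset.sum_mul, pow_add]
            ring
    have h4 := Nat.le_of_mul_le_mul_left h3 hM0
    calc M * n.factorial * 2 ^ r = M * (n.factorial * 2 ^ r) := by ring
      _ ≤ _ := h4
  have hfin : (2 ^ r * n.factorial) * M ≤ (2 ^ r * n.factorial) * (#(Dset I π) * 2 ^ (8 * k + 3)) := by
    calc (2 ^ r * n.factorial) * M = M * n.factorial * 2 ^ r := by ring
      _ ≤ _ := hlow
      _ ≤ ((2 ^ r * n.factorial) * #(Dset I π)) * 2 ^ (8 * k + 3) := Nat.mul_le_mul_right _ hup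
      _ = _ := by ring
  exact Nat.le_of_mul_le_mul_left hfin (by positivity)

end choice

/-- **Oblivious multi-read lower bound for graph isomorphism.** -/
theorem result (n k : ℕ) (hk : 1 ≤ k) (P : BranchingProgram (Var n))
    (hob : IsOblivious P (k * Fintype.card (Var n))) (hc : P.Computes (Isomorphic n)) :
    2 ^ (n.choose 2 / 2 ^ (8 * k + 3)) ≤ P.size ^ (260 * k ^ 2) * n.factorial ^ 2 := by
  classical
  set M := Fintype.card (Pr n) with hM
  have hMn : n.choose 2 = M := by
    rw [hM, Sym2.card_subtype_not_diag, Fintype.card_fin]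
  have hsize : 1 ≤ P.size := Fintype.card_pos_iff.2 ⟨P.start⟩
  rw [hMn]
  have hcardV : k * Fintype.card (Var n) = 2 * k * M := by
    change k * Fintype.card (Pr n ⊕ Pr n) = _
    rw [Fintype.card_sum, ← hM]; ring
  rw [hcardV] at hob
  rcases lt_or_ge M (32 * k) with hlt | hge
  · have h1 : M / 2 ^ (8 * k + 3) = 0 := by
      apply Nat.div_eq_of_lt
      calc M < 32 * k := hlt
        _ ≤ 2 ^ (8 * k + 3) := by
          have h2 : k < 2 ^ k := Nat.lt_two_pow_self
          calc 32 * k ≤ 2 ^ 5 * 2 ^ k := by nlinarith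
            _ = 2 ^ (5 + k) := by rw [pow_add]
            _ ≤ 2 ^ (8 * k + 3) := Nat.pow_le_pow_right (by norm_num) (by omega)
    rw [h1, pow_zero]
    exact Nat.one_le_iff_ne_zero.2 (by positivity)
  obtain ⟨order, time, h1, h2⟩ := hob
  obtain ⟨r, hr⟩ : ∃ r, r = 64 * k ^ 2 := ⟨_, rfl⟩
  obtain ⟨q, hq⟩ : ∃ q, q = 2 * k * M / (64 * k ^ 2) + 1 := ⟨_, rfl⟩
  obtain ⟨I, π, hIπ⟩ := exists_choice hk order le_rfl hge q r hr hq
  have hTrq : 2 * k * M ≤ r * q := by
    have h3 := Nat.lt_div_mul_add (a := 2 * k * M) (b := 64 * k ^ 2) (by positivity)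
    rw [hq, hr]
    nlinarith
  -- traces
  have htr : ∀ G : Pr n → Bool, ∃ v : Fin (r + 1) → P.Node, Trace order q r (inp π G) v :=
    fun G => exists_trace order time h1 h2 q r hTrq _ ((hc _).2 (inp_isomorphic π G))
  choose v hv using htr
  obtain ⟨w, -, hw⟩ := Finset.exists_max_image (Finset.univ : Finset (Fin (r + 1) → P.Node))
    (fun u => #{G | v G = u}) ⟨fun _ => P.start, Finset.mem_univ _⟩
  set R : Finset (Pr n → Bool) := {G | v G = w} with hR
  have hRcard : 2 ^ M ≤ P.size ^ (r + 1) * #R := by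
    have h3 : Fintype.card (Pr n → Bool) = 2 ^ M := by
      rw [Fintype.card_fun, Fintype.card_bool]
    rw [← h3, ← Finset.card_univ, Finset.card_eq_sum_card_fiberwise (f := v) (t := Finset.univ)
      (by intro x _; simp)]
    refine (Finset.sum_le_card_nsmul _ _ (#R) ?_).trans (le_of_eq ?_)
    · intro u hu
      exact hw u hu
    · rw [smul_eq_mul, Finset.card_univ, Fintype.card_fun, Fintype.card_fin]
      rfl
  let S : Finset (Var n) := {x | (∃ e, x = Sum.inl e) ∧ touch order q r x ⊆ I}
  let S' : Finset (Var n) := {x | (∃ e, x = Sum.inr e) ∧ Disjoint (touch order q r x) I}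
  have hSS : Disjoint S S' := by
    rw [Finset.disjoint_left]
    intro x hx hx'
    simp only [S, S', Finset.mem_filter, Finset.mem_univ, true_and] at hx hx'
    obtain ⟨⟨e, rfl⟩, -⟩ := hx
    obtain ⟨⟨e', h⟩, -⟩ := hx'
    simp at h
  have hcore := fixed_core S S' hSS π R (by
    intro G hG G' hG' hagree
    have hG1 : v G = w := by simpa [hR] using hG
    have hG1' : v G' = w := by simpa [hR] using hG'
    have t1 := hv G
    have t2 := hv G'
    rw [hG1] at t1
    rw [hG1'] at t2
    apply (hc _).1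
    refine mix_accepts order t1 t2 I _ ?_
    intro x j hj
    constructor
    · intro hjI
      by_cases hxS : x ∈ S
      · simp only [hxS, if_true]
      · simp only [hxS, if_false]
        refine (hagree x hxS ?_).symm
        intro hxS'
        simp only [S', Finset.mem_filter, Finset.mem_univ, true_and] at hxS'
        exact (Finset.disjoint_left.1 hxS'.2) hj hjI
    · intro hjI
      have hxS : x ∉ S := by
        intro hxS
        simp only [S, Finset.mem_filter, Finset.mem_univ, true_and] at hxS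
        exact hjI (hxS.2 hj)
      simp only [hxS, if_false])
  have hDeq : #{e | Sum.inl e ∈ S ∧ Sum.inr (pact π e) ∈ S'} =
      #{e | touch order q r (Sum.inl e) ⊆ I ∧ Disjoint (touch order q r (Sum.inr (pact π e))) I} := by
    congr 1
    ext e
    simp only [S, S', Finset.mem_filter, Finset.mem_univ, true_and]
    exact ⟨fun h => ⟨h.1.2, h.2.2⟩, fun h => ⟨⟨⟨e, rfl⟩, h.1⟩, ⟨⟨_, rfl⟩, h.2⟩⟩⟩
  rw [hDeq] at hcore
  set d := #{e | touch order q r (Sum.inl e) ⊆ I ∧ Disjoint (touch order q r (Sum.inr (pact π e))) I}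
    with hd
  have hdM : M / 2 ^ (8 * k + 3) ≤ d := Nat.div_le_of_le_mul (by rw [mul_comm]; exact hIπ)
  have hmain : 2 ^ d * 2 ^ (4 * M) ≤ (P.size ^ (4 * (r + 1)) * n.factorial ^ 2) * 2 ^ (4 * M) := by
    calc 2 ^ d * 2 ^ (4 * M) = 2 ^ d * (2 ^ M) ^ 4 := by rw [← pow_mul, mul_comm M 4]
      _ ≤ 2 ^ d * (P.size ^ (r + 1) * #R) ^ 4 := by gcongr
      _ = P.size ^ (4 * (r + 1)) * (#R ^ 4 * 2 ^ d) := by
          rw [mul_pow, ← pow_mul, mul_comm (r + 1) 4]; ring
      _ ≤ P.size ^ (4 * (r + 1)) * (n.factorial ^ 2 * 2 ^ (4 * M)) := Nat.mul_le_mul_left _ hcore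
      _ = _ := by ring
  have hfinal := Nat.le_of_mul_le_mul_right hmain (by positivity)
  calc 2 ^ (M / 2 ^ (8 * k + 3)) ≤ 2 ^ d := Nat.pow_le_pow_right (by norm_num) hdM
    _ ≤ P.size ^ (4 * (r + 1)) * n.factorial ^ 2 := hfinal
    _ ≤ P.size ^ (260 * k ^ 2) * n.factorial ^ 2 := by
        apply Nat.mul_le_mul_right
        apply Nat.pow_le_pow_right hsize
        rw [hr]
        nlinarith

end Pool.Agent.Results.MP_128e7d_lc.Oblivious
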