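import Pool.Agent.SRGWL.Final

/-!
# The Weisfeiler-Leman dimension of strongly regular graphs is unbounded

For every `k` there are two non-isomorphic, vertex-transitive strongly regular graphs with the same
parameters `(n², 3(n-1), n, 6)`, `n = 3^(256 k + 272)`, that are not distinguished by the
`k`-dimensional Weisfeiler-Leman algorithm; they are the Latin square graphs of two groups of order
`n`.
-/

namespace Pool.Agent.Results.MP_128e7d_lc.StronglyRegular

open Pool.Agent.SRGWL

open Classical in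
theorem result (k : ℕ) :
    ∃ (H₁ H₂ : Type) (_ : Group H₁) (_ : Group H₂) (_ : Fintype H₁) (_ : Fintype H₂) (n : ℕ),
      n = 3 ^ (256 * k + 272) ∧ Fintype.card H₁ = n ∧ Fintype.card H₂ = n ∧
      (lsGraph H₁).IsSRGWith (n ^ 2) (3 * (n - 1)) n 6 ∧
      (lsGraph H₂).IsSRGWith (n ^ 2) (3 * (n - 1)) n 6 ∧
      (∀ u v : H₁ × H₁, ∃ φ : lsGraph H₁ ≃g lsGraph H₁, φ u = v) ∧
      (∀ u v : H₂ × H₂, ∃ φ : lsGraph H₂ ≃g lsGraph H₂, φ u = v) ∧
      IsEmpty (lsGraph H₁ ≃g lsGraph H₂) ∧
      WLEquiv k (lsGraph H₁) (lsGraph H₂) := by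
  obtain ⟨A, D, hc0, hcD, hiso, ⟨S⟩⟩ := exists_groups (k + 1) (by omega)
  have hn : 256 * (k + 1) + 16 = 256 * k + 272 := by ring
  rw [hn] at hc0 hcD
  have h1 : Fintype.card (G A 0) = 3 ^ (256 * k + 272) := by
    rw [← Nat.card_eq_fintype_card, hc0]
  have h2 : Fintype.card (G A D) = 3 ^ (256 * k + 272) := by
    rw [← Nat.card_eq_fintype_card, hcD]
  refine ⟨G A 0, G A D, inferInstance, inferInstance, inferInstance, inferInstance, _, rfl, h1, h2,
    ?_, ?_, lsGraph_transitive _, lsGraph_transitive _, ⟨fun φ => ?_⟩,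
    wlEquiv_of_sys S (by omega)⟩
  · have := lsGraph_isSRGWith (G A 0)
    rw [h1] at this
    exact this
  · have := lsGraph_isSRGWith (G A D)
    rw [h2] at this
    exact this
  · have h5 : 5 ≤ Fintype.card (G A 0) := by
      rw [h1]
      calc 5 ≤ 3 ^ 2 := by norm_num
        _ ≤ 3 ^ (256 * k + 272) := Nat.pow_le_pow_right (by norm_num) (by omega)
    exact hiso.false (mulEquiv_of_lsGraph h5 φ).some

end Pool.Agent.Results.MP_128e7d_lc.StronglyRegular
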