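import Pool.Agent.SRGWL.Cay

/-!
# The Weisfeiler-Leman dimension of strongly regular Cayley graphs is unbounded

For every odd prime `p` and every `k` there are two non-isomorphic strongly regular Cayley graphs of
`p`-groups with the same parameters `(n², 3(n-1), n, 6)`, `n = p^(256 k + 272)`, that are not
distinguished by the `k`-dimensional Weisfeiler-Leman algorithm; they are the Latin square graphs of
two groups of order `n`.
-/

namespace Pool.Agent.Results.MP_128e7d_lc.StronglyRegularCayley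

open Pool.Agent.SRGWL

open Classical in
/-- `X` is a strongly regular graph with parameters `(n², 3(n-1), n, 6)`, and it is isomorphic to a
Cayley graph of `Γ`. -/
def IsSRGCayley (Γ : Type) [Group Γ] {V : Type} [Fintype V] (X : SimpleGraph V) (n : ℕ) : Prop :=
  X.IsSRGWith (n ^ 2) (3 * (n - 1)) n 6 ∧ ∃ S : Set Γ, Nonempty (X ≃g cay Γ S)

open Classical in
theorem result (p : ℕ) (hp : p.Prime) (hp2 : p ≠ 2) (k : ℕ) :
    ∃ (H₁ H₂ : Type) (_ : Group H₁) (_ : Group H₂) (_ : Fintype H₁) (_ : Fintype H₂) (n : ℕ),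
      n = p ^ (256 * k + 272) ∧ Fintype.card H₁ = n ∧ Fintype.card H₂ = n ∧
      IsSRGCayley (H₁ × H₁) (lsGraph H₁) n ∧ IsSRGCayley (H₂ × H₂) (lsGraph H₂) n ∧
      IsEmpty (lsGraph H₁ ≃g lsGraph H₂) ∧ WLEquiv k (lsGraph H₁) (lsGraph H₂) := by
  have : Fact p.Prime := ⟨hp⟩
  obtain ⟨A, D, hall, hD, hiso, ⟨S⟩⟩ := exists_special_groups p hp2 (k + 1) (by omega)
  have hn : 256 * (k + 1) + 16 = 256 * k + 272 := by ring
  have h1 : Fintype.card (G A 0) = p ^ (256 * k + 272) := by
    rw [← Nat.card_eq_fintype_card, ← hn]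
    exact (hall 0 (fun _ _ _ => by simp)).1
  have h2 : Fintype.card (G A D) = p ^ (256 * k + 272) := by
    rw [← Nat.card_eq_fintype_card, ← hn]
    exact (hall D hD).1
  refine ⟨G A 0, G A D, inferInstance, inferInstance, inferInstance, inferInstance, _, rfl, h1, h2,
    ⟨?_, _, lsGraph_cay _⟩, ⟨?_, _, lsGraph_cay _⟩, ⟨fun φ => ?_⟩, wlEquiv_of_sys S (by omega)⟩
  · have := lsGraph_isSRGWith (G A 0)
    rw [h1] at this
    exact this
  · have := lsGraph_isSRGWith (G A D)
    rw [h2] at this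
    exact this
  · have h5 : 5 ≤ Fintype.card (G A 0) := by
      rw [h1]
      have h3 : 3 ≤ p := by
        have := hp.two_le
        omega
      calc 5 ≤ 3 ^ 2 := by norm_num
        _ ≤ p ^ 2 := Nat.pow_le_pow_left h3 2
        _ ≤ p ^ (256 * k + 272) := Nat.pow_le_pow_right (by omega) (by omega)
    exact hiso.false (mulEquiv_of_lsGraph h5 φ).some

end Pool.Agent.Results.MP_128e7d_lc.StronglyRegularCayley
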