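import Pool.Agent.WLIter.Graph
import Pool.Agent.WLIter.LowG

/-!
# The iteration number of `k`-dimensional Weisfeiler–Leman is of order `n^(k-1)`

Upper bound: for every `k ≥ 2` and every `k`-ary structure with `n` elements the `k`-dimensional
Weisfeiler–Leman algorithm (`Pool.Agent.WLIter.wl`) stabilises after at most `8 * n ^ (k - 1)`
rounds.  Hence, if it distinguishes the structure from another one, it does so within
`8 * n ^ (k - 1) + 1` rounds, and isomorphism with a graph that it identifies is decided by
the colours of round `8 * n ^ (k - 1) + 1`.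

Lower bound: for every `k ≥ 3` and every `n ≥ 32 * k * (k + 1) ^ 2` there are two `k`-ary
relations on a set with at most `n` elements that are distinguished by the algorithm, but not
within `k * (n / (16 * k * (k + 1))) ^ (k - 1)` rounds.
-/

namespace Pool.Agent.Results.MP_128e7d_lc.WLIterationNumber

open Pool.Agent.WLIter

universe u v w

theorem result (k : ℕ) (hk : 2 ≤ k) :
    -- (1) stabilisation
    (∀ {V : Type v} [Fintype V] [DecidableEq V] {α : Type u} (c : (Fin k → V) → α) (r : ℕ),
      8 * Fintype.card V ^ (k - 1) ≤ r →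
      ∀ x y : Fin k → V, wl c r x = wl c r y ↔
        wl c (8 * Fintype.card V ^ (k - 1)) x = wl c (8 * Fintype.card V ^ (k - 1)) y) ∧
    -- (2) distinguishing two structures
    (∀ {V : Type v} [Fintype V] [DecidableEq V] {α : Type u} (c : (Fin k → V) → α)
      {V' : Type w} [Fintype V'] [DecidableEq V'] (c' : (Fin k → V') → α),
      wlMultiset c (8 * Fintype.card V ^ (k - 1) + 1) =
        wlMultiset c' (8 * Fintype.card V ^ (k - 1) + 1) →
      ∀ r, wlMultiset c r = wlMultiset c' r) ∧
    -- (3) isomorphism with a graph that is identified by the algorithm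
    (∀ {V : Type v} [Fintype V] [DecidableEq V] (G : SimpleGraph V),
      (∀ H : SimpleGraph V, (∀ r, wlMultiset (graphStr k G) r = wlMultiset (graphStr k H) r) →
        Nonempty (G ≃g H)) →
      ∀ H : SimpleGraph V, Nonempty (G ≃g H) ↔
        wlMultiset (graphStr k G) (8 * Fintype.card V ^ (k - 1) + 1) =
          wlMultiset (graphStr k H) (8 * Fintype.card V ^ (k - 1) + 1)) ∧
    -- (4) optimality
    (3 ≤ k → ∀ n : ℕ, 32 * k * (k + 1) ^ 2 ≤ n →
      ∃ (V : Type) (_ : Fintype V) (_ : DecidableEq V) (P P' : (Fin k → V) → Prop),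
        Fintype.card V ≤ n ∧
        (∀ r ≤ k * (n / (16 * k * (k + 1))) ^ (k - 1), wlMultiset P r = wlMultiset P' r) ∧
        (∃ r, wlMultiset P r ≠ wlMultiset P' r) ∧
        (∀ r < k * (n / (16 * k * (k + 1))) ^ (k - 1), ∃ x y : Fin k → V,
          wl P r x = wl P r y ∧ wl P (r + 1) x ≠ wl P (r + 1) y)) := by
  refine ⟨?_, ?_, ?_, fun hk3 n hn => Low.lower k hk3 n hn⟩
  all_goals
    obtain ⟨k, rfl⟩ : ∃ k', k = k' + 2 := ⟨k - 2, by omega⟩
    have hk1 : k + 2 - 1 = k + 1 := by omega
    rw [hk1]
  · intro V _ _ α c r hr x y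
    exact ⟨wl_of_le c c hr x y, stabilises c r hr x y⟩
  · intro V _ _ α c V' _ _ c' h r
    exact two_structures c c' _ (fun x y hxy => stabilises c _ (Nat.le_succ _) x y hxy) h r
  · intro V _ _ G hG H
    refine ⟨?_, fun h => hG H (two_structures _ _ _
      (fun x y hxy => stabilises _ _ (Nat.le_succ _) x y hxy) h)⟩
    rintro ⟨e⟩
    exact wlMultiset_iso G H e _

end Pool.Agent.Results.MP_128e7d_lc.WLIterationNumber
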